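import Mathlib

namespace Pool.Agent.Results.MP_9a8b60_mp.Blocks

open Matrix
open scoped Kronecker ComplexOrder MatrixOrder

variable {n : Type} [Fintype n] [DecidableEq n] {N : ℕ}

/-- density matrices -/
def St (ρ : Matrix n n ℂ) : Prop := ρ.PosSemidef ∧ ρ.trace = 1

/-- optimal transport cost over couplings with first marginal `A` and second marginal `B` -/
noncomputable def W (H : Fin N → Matrix n n ℂ) (A B : Matrix n n ℂ) : ℝ :=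
  sInf {t | ∃ ω : Matrix (n × n) (n × n) ℂ, St ω ∧ (∀ i j, ∑ k, ω (i, k) (j, k) = A i j) ∧
    (∀ i j, ∑ k, ω (k, i) (k, j) = B i j) ∧
    t = 1 / 2 * ∑ m, (ω * ((H m)ᵀ ⊗ₖ (1 : Matrix n n ℂ) - (1 : Matrix n n ℂ) ⊗ₖ H m) ^ 2).trace.re}

/-- the separable version of a cost `c` -/
noncomputable def Sep (c : Matrix n n ℂ → Matrix n n ℂ → ℝ) (ρ σ : Matrix n n ℂ) : ℝ :=
  sInf {t | ∃ (K : ℕ) (p : Fin K → ℝ) (Ψ Φ : Fin K → n → ℂ), (∀ k, 0 < p k) ∧ ∑ k, p k = 1 ∧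
    (∀ k, star (Ψ k) ⬝ᵥ Ψ k = 1 ∧ star (Φ k) ⬝ᵥ Φ k = 1) ∧
    ∑ k, (p k : ℂ) • vecMulVec (Ψ k) (star (Ψ k)) = ρ ∧
    ∑ k, (p k : ℂ) • vecMulVec (Φ k) (star (Φ k)) = σ ∧
    t = ∑ k, p k * c (vecMulVec (Ψ k) (star (Ψ k))) (vecMulVec (Φ k) (star (Φ k)))}

/-- the modified quantity -/
noncomputable def Md (c : Matrix n n ℂ → Matrix n n ℂ → ℝ) (ρ σ : Matrix n n ℂ) : ℝ :=
  c ρ σ - 1 / 2 * (c ρ ρ + c σ σ)

theorem tr_nonneg (P Q : Matrix n n ℂ) (hP : P.PosSemidef) (hQ : Q.PosSemidef) :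
    0 ≤ (P * Q).trace.re := by
  obtain ⟨C, rfl⟩ := CStarAlgebra.nonneg_iff_eq_star_mul_self.1 hQ.nonneg
  rw [← Matrix.mul_assoc, trace_mul_cycle]
  exact (Complex.nonneg_iff.1 (hP.mul_mul_conjTranspose_same C).trace_nonneg).1

theorem W_lb (H : Fin N → Matrix n n ℂ) (hH : ∀ m, (H m).IsHermitian) (A B : Matrix n n ℂ) :
    (0 : ℝ) ∈ lowerBounds {t | ∃ ω : Matrix (n × n) (n × n) ℂ, St ω ∧
      (∀ i j, ∑ k, ω (i, k) (j, k) = A i j) ∧ (∀ i j, ∑ k, ω (k, i) (k, j) = B i j) ∧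
      t = 1 / 2 * ∑ m, (ω * ((H m)ᵀ ⊗ₖ (1 : Matrix n n ℂ) -
        (1 : Matrix n n ℂ) ⊗ₖ H m) ^ 2).trace.re} := by
  rintro _ ⟨ω, hω, -, -, rfl⟩
  refine mul_nonneg (by norm_num) (Finset.sum_nonneg fun m _ => tr_nonneg _ _ hω.1 ?_)
  have h : ((H m)ᵀ ⊗ₖ (1 : Matrix n n ℂ) - (1 : Matrix n n ℂ) ⊗ₖ H m)ᴴ =
      (H m)ᵀ ⊗ₖ (1 : Matrix n n ℂ) - (1 : Matrix n n ℂ) ⊗ₖ H m := by
    rw [conjTranspose_sub, conjTranspose_kronecker, conjTranspose_kronecker, conjTranspose_one,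
      (hH m).eq, (hH m).transpose.eq]
  rw [pow_two]
  nth_rewrite 1 [← h]
  exact posSemidef_conjTranspose_mul_self _

theorem tr1 (ω : Matrix (n × n) (n × n) ℂ) (A K : Matrix n n ℂ)
    (h : ∀ i j, ∑ k, ω (i, k) (j, k) = A i j) :
    (ω * K ⊗ₖ (1 : Matrix n n ℂ)).trace = (A * K).trace := by
  simp only [trace, diag_apply, mul_apply, Fintype.sum_prod_type, kroneckerMap_apply, one_apply,
    mul_ite, mul_one, mul_zero, Finset.sum_ite_eq', Finset.mem_univ, if_true, ← h, Finset.sum_mul]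
  exact Finset.sum_congr rfl fun i _ => Finset.sum_comm

theorem tr2 (ω : Matrix (n × n) (n × n) ℂ) (B K : Matrix n n ℂ)
    (h : ∀ i j, ∑ k, ω (k, i) (k, j) = B i j) :
    (ω * (1 : Matrix n n ℂ) ⊗ₖ K).trace = (B * K).trace := by
  simp only [trace, diag_apply, mul_apply, Fintype.sum_prod_type, kroneckerMap_apply, one_apply,
    ite_mul, one_mul, zero_mul, mul_ite, mul_zero, ← h, Finset.sum_mul]
  rw [Finset.sum_comm]
  refine Finset.sum_congr rfl fun i _ => ?_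
  rw [Finset.sum_comm (γ := n) (f := fun j k => ω (k, i) (k, j) * K j i)]
  refine Finset.sum_congr rfl fun k _ => ?_
  rw [Finset.sum_comm]
  simp

omit [Fintype n] in
theorem o2 (x y : n × n) : (1 : Matrix n n ℂ) x.1 y.1 * (1 : Matrix n n ℂ) x.2 y.2 =
    (1 : Matrix (n × n) (n × n) ℂ) x y := congrFun (congrFun one_kronecker_one x) y

theorem pure_coupling (ω : Matrix (n × n) (n × n) ℂ) (hω : ω.PosSemidef) (a : n → ℂ)
    (ha : star a ⬝ᵥ a = 1) (B K L : Matrix n n ℂ)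
    (h1 : ∀ i j, ∑ k, ω (i, k) (j, k) = vecMulVec a (star a) i j)
    (h2 : ∀ i j, ∑ k, ω (k, i) (k, j) = B i j) :
    (ω * K ⊗ₖ L).trace = (star a ⬝ᵥ K *ᵥ a) * (B * L).trace := by
  obtain ⟨P, hP⟩ : ∃ P, P = vecMulVec a (star a) := ⟨_, rfl⟩
  have e1 : P * K * P = (star a ⬝ᵥ K *ᵥ a) • P := by
    rw [hP, Matrix.mul_assoc, mul_vecMulVec, vecMulVec_mul_vecMulVec, vecMulVec_smul]
  have e2 : P * P = P := by
    rw [hP, vecMulVec_mul_vecMulVec, ha, one_smul]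
  have e3 : Pᴴ = P := by rw [hP]; exact (posSemidef_vecMulVec_self_star a).1
  have e4 : P.trace = 1 := by rw [hP, trace_vecMulVec, dotProduct_comm, ha]
  rw [← hP] at h1
  obtain ⟨C, rfl⟩ := CStarAlgebra.nonneg_iff_eq_star_mul_self.1 hω.nonneg
  obtain ⟨Q, hQ⟩ : ∃ Q, Q = (1 - P) ⊗ₖ (1 : Matrix n n ℂ) := ⟨_, rfl⟩
  have e5 : Q * Qᴴ = Q := by
    rw [hQ, conjTranspose_kronecker, ← mul_kronecker_mul, conjTranspose_sub, conjTranspose_one, e3,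
      mul_one, sub_mul, mul_sub, mul_sub, e2]
    simp
  have e6 : C * Q = 0 := by
    rw [← trace_conjTranspose_mul_self_eq_zero_iff, conjTranspose_mul, Matrix.mul_assoc,
      trace_mul_comm, ← Matrix.mul_assoc, Matrix.mul_assoc, e5, hQ]
    refine (tr1 _ _ _ h1).trans ?_
    rw [mul_sub, e2, mul_one, sub_self, trace_zero]
  have e7 : C = C * P ⊗ₖ (1 : Matrix n n ℂ) := by
    have e8 : Q = 1 - P ⊗ₖ (1 : Matrix n n ℂ) := by
      rw [hQ]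
      ext x y
      simp [sub_mul, o2]
    rw [e8, mul_sub, mul_one, sub_eq_zero] at e6
    exact e6
  have e8 : star C = P ⊗ₖ (1 : Matrix n n ℂ) * star C := by
    conv_lhs => rw [e7, star_eq_conjTranspose, conjTranspose_mul, conjTranspose_kronecker, e3,
      conjTranspose_one]
    rfl
  calc (star C * C * K ⊗ₖ L).trace
      = (P ⊗ₖ (1 : Matrix n n ℂ) * star C * (C * P ⊗ₖ (1 : Matrix n n ℂ)) * K ⊗ₖ L).trace := by
        rw [← e7, ← e8]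
    _ = (star C * C * ((P * K * P) ⊗ₖ L)).trace := by
        rw [Matrix.mul_assoc, Matrix.mul_assoc, trace_mul_comm]
        simp only [Matrix.mul_assoc, ← mul_kronecker_mul, mul_one, one_mul]
    _ = (star a ⬝ᵥ K *ᵥ a) *
          (star C * (C * P ⊗ₖ (1 : Matrix n n ℂ)) * (1 : Matrix n n ℂ) ⊗ₖ L).trace := by
        rw [e1, smul_kronecker, mul_smul_comm, trace_smul, smul_eq_mul]
        simp only [Matrix.mul_assoc, ← mul_kronecker_mul, mul_one, one_mul]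
    _ = _ := by rw [← e7, tr2 _ _ _ h2]

/-- the two observables -/
def H₀ : Fin 2 → Matrix (Fin 4) (Fin 4) ℂ :=
  ![!![2, 0, 0, 0; 0, -2, 0, 0; 0, 0, 0, 1; 0, 0, 1, 0],
    !![0, 1, 0, 0; 1, 0, 0, 0; 0, 0, 2, 0; 0, 0, 0, -2]]

theorem H_herm (m : Fin 2) : (H₀ m).IsHermitian := by
  ext i j
  fin_cases m <;> fin_cases i <;> fin_cases j <;> simp [H₀]

theorem cost (ω : Matrix (Fin 4 × Fin 4) (Fin 4 × Fin 4) ℂ) (h : ω.trace = 1) :
    1 / 2 * ∑ m, (ω * ((H₀ m)ᵀ ⊗ₖ (1 : Matrix (Fin 4) (Fin 4) ℂ) -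
      (1 : Matrix (Fin 4) (Fin 4) ℂ) ⊗ₖ H₀ m) ^ 2).trace.re =
      5 - (ω * H₀ 0 ⊗ₖ H₀ 0).trace.re - (ω * H₀ 1 ⊗ₖ H₀ 1).trace.re := by
  have h1 : ∀ m, (H₀ m)ᵀ = H₀ m := by
    intro m
    ext i j
    fin_cases m <;> fin_cases i <;> fin_cases j <;> simp [H₀]
  have h2 : H₀ 1 * H₀ 1 = (5 : ℂ) • 1 - H₀ 0 * H₀ 0 := by
    ext i j
    fin_cases i <;> fin_cases j <;> simp [H₀, mul_apply, Fin.sum_univ_four] <;> norm_num
  have h3 : ∀ K : Matrix (Fin 4) (Fin 4) ℂ, ((5 : ℂ) • 1 - K) ⊗ₖ (1 : Matrix (Fin 4) (Fin 4) ℂ) =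
      (5 : ℂ) • 1 - K ⊗ₖ (1 : Matrix (Fin 4) (Fin 4) ℂ) := by
    intro K
    ext x y
    simp [sub_mul, mul_assoc, o2]
  have h4 : ∀ K : Matrix (Fin 4) (Fin 4) ℂ, (1 : Matrix (Fin 4) (Fin 4) ℂ) ⊗ₖ ((5 : ℂ) • 1 - K) =
      (5 : ℂ) • 1 - (1 : Matrix (Fin 4) (Fin 4) ℂ) ⊗ₖ K := by
    intro K
    ext x y
    simp [mul_sub, mul_left_comm, o2]
  simp only [Fin.sum_univ_two, h1, pow_two, sub_mul, mul_sub, ← mul_kronecker_mul, mul_one, one_mul,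
    h2, h3, h4, trace_sub, mul_smul_comm, trace_smul, h, Complex.sub_re, smul_eq_mul]
  simp
  ring

theorem W_pure (a b : Fin 4 → ℂ) (ha : star a ⬝ᵥ a = 1) (hb : star b ⬝ᵥ b = 1) :
    W H₀ (vecMulVec a (star a)) (vecMulVec b (star b)) =
      5 - ((star a ⬝ᵥ H₀ 0 *ᵥ a) * (star b ⬝ᵥ H₀ 0 *ᵥ b)).re -
        ((star a ⬝ᵥ H₀ 1 *ᵥ a) * (star b ⬝ᵥ H₀ 1 *ᵥ b)).re := by
  rw [W, ← csInf_singleton (5 - _ - _)]
  congr 1
  have h1 : ∀ L : Matrix (Fin 4) (Fin 4) ℂ, (vecMulVec b (star b) * L).trace =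
      star b ⬝ᵥ L *ᵥ b := fun L => by
    rw [trace_mul_comm, mul_vecMulVec, trace_vecMulVec, dotProduct_comm]
  refine Set.eq_singleton_iff_nonempty_unique_mem.2 ⟨⟨_, vecMulVec a (star a) ⊗ₖ
    vecMulVec b (star b), ⟨(posSemidef_vecMulVec_self_star a).kronecker
      (posSemidef_vecMulVec_self_star b), ?_⟩, ?_, ?_, rfl⟩, ?_⟩
  · rw [trace_kronecker, trace_vecMulVec, trace_vecMulVec, dotProduct_comm a, dotProduct_comm b,
      ha, hb, mul_one]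
  · intro i j
    simp only [kroneckerMap_apply, ← Finset.mul_sum]
    rw [show ∑ k, vecMulVec b (star b) k k = 1 from (trace_vecMulVec _ _).trans
      ((dotProduct_comm _ _).trans hb), mul_one]
  · intro i j
    simp only [kroneckerMap_apply, ← Finset.sum_mul]
    rw [show ∑ k, vecMulVec a (star a) k k = 1 from (trace_vecMulVec _ _).trans
      ((dotProduct_comm _ _).trans ha), one_mul]
  · rintro _ ⟨ω, hω, h2, h3, rfl⟩
    rw [cost ω hω.2, pure_coupling ω hω.1 a ha _ _ _ h2 h3, pure_coupling ω hω.1 a ha _ _ _ h2 h3,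
      h1, h1]

theorem corr (a b : Fin 4 → ℂ) (ha : star a ⬝ᵥ a = 1) (hb : star b ⬝ᵥ b = 1)
    (a2 : a 2 = 0) (a3 : a 3 = 0) (b0 : b 0 = 0) (b1 : b 1 = 0) :
    ((star a ⬝ᵥ H₀ 0 *ᵥ a) * (star b ⬝ᵥ H₀ 0 *ᵥ b)).re +
        ((star a ⬝ᵥ H₀ 1 *ᵥ a) * (star b ⬝ᵥ H₀ 1 *ᵥ b)).re ≤ 2 := by
  have ha' := congrArg Complex.re ha
  have hb' := congrArg Complex.re hb
  simp [H₀, dotProduct, mulVec, Fin.sum_univ_four, a2, a3, b0, b1] at ha' hb' ⊢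
  generalize (a 0).re = p, (a 0).im = q, (a 1).re = r, (a 1).im = s, (b 2).re = p', (b 2).im = q',
    (b 3).re = r', (b 3).im = s' at ha' hb' ⊢
  have h1 : (p * p + q * q - r * r - s * s) ^ 2 + (2 * (p * r + q * s)) ^ 2 +
      (2 * (p * s - q * r)) ^ 2 = 1 := by
    linear_combination (p * p + q * q + (r * r + s * s) + 1) * ha'
  have h2 : (p' * p' + q' * q' - r' * r' - s' * s') ^ 2 + (2 * (p' * r' + q' * s')) ^ 2 +
      (2 * (p' * s' - q' * r')) ^ 2 = 1 := by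
    linear_combination (p' * p' + q' * q' + (r' * r' + s' * s') + 1) * hb'
  nlinarith [sq_nonneg (p * p + q * q - r * r - s * s - 2 * (p' * r' + q' * s')),
    sq_nonneg (p' * p' + q' * q' - r' * r' - s' * s' - 2 * (p * r + q * s)),
    sq_nonneg (2 * (p * s - q * r)), sq_nonneg (2 * (p' * s' - q' * r'))]

theorem result : ∃ (H : Fin 2 → Matrix (Fin 4) (Fin 4) ℂ) (ρ σ : Matrix (Fin 4) (Fin 4) ℂ),
    (∀ m, (H m).IsHermitian) ∧ St ρ ∧ St σ ∧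
    ∀ c : Matrix (Fin 4) (Fin 4) ℂ → Matrix (Fin 4) (Fin 4) ℂ → ℝ,
      (c = fun A B => W H Aᵀ B) ∨ (c = fun A B => W H B Aᵀ) → Md c ρ σ < Md (Sep c) ρ σ := by
  obtain ⟨ρ, hρ⟩ : ∃ ρ : Matrix (Fin 4) (Fin 4) ℂ, ρ = diagonal ![1 / 2, 1 / 2, 0, 0] := ⟨_, rfl⟩
  obtain ⟨σ, hσ⟩ : ∃ σ : Matrix (Fin 4) (Fin 4) ℂ, σ = diagonal ![0, 0, 1 / 2, 1 / 2] := ⟨_, rfl⟩
  have hd : ∀ d : Fin 4 → ℂ, (∀ i, 0 ≤ d i) → ∑ i, d i = 1 → St (diagonal d) := fun d h1 h2 =>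
    ⟨PosSemidef.diagonal h1, by rw [trace_diagonal, h2]⟩
  refine ⟨H₀, ρ, σ, H_herm, hρ ▸ hd _ (fun i => by fin_cases i <;> simp)
    (by simp [Fin.sum_univ_four]; norm_num), hσ ▸ hd _ (fun i => by fin_cases i <;> simp)
    (by simp [Fin.sum_univ_four]; norm_num), fun c hc => ?_⟩
  have h0 : ∀ A B, 0 ≤ c A B := by
    intro A B
    rcases hc with rfl | rfl <;> exact Real.sInf_nonneg (W_lb H₀ H_herm _ _)
  have hv : ∀ (g : Matrix (Fin 4) (Fin 4) ℂ) (A B : Matrix (Fin 4) (Fin 4) ℂ), A.trace = 1 →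
      (∀ i j, ∑ k, g i k * star (g j k) = A i j) → (∀ i j, ∑ k, g k i * star (g k j) = B i j) →
      (∀ m, (∑ i, ∑ j, ∑ k, ∑ l, g i j * star (g k l) * (H₀ m k i * H₀ m l j)).re = 2) →
      W H₀ A B ≤ 1 := by
    intro g A B h1 h2 h3 h4
    have h5 : St (vecMulVec (fun x : Fin 4 × Fin 4 => g x.1 x.2)
        (star fun x : Fin 4 × Fin 4 => g x.1 x.2)) := by
      refine ⟨posSemidef_vecMulVec_self_star _, ?_⟩
      rw [← h1]
      simp only [trace, diag_apply, vecMulVec_apply, Fintype.sum_prod_type, ← h2, Pi.star_apply]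
    refine csInf_le ⟨0, W_lb H₀ H_herm _ _⟩ ⟨_, h5, h2, h3, ?_⟩
    rw [cost _ h5.2]
    simp only [trace, diag_apply, mul_apply, vecMulVec_apply, Fintype.sum_prod_type,
      kroneckerMap_apply, Pi.star_apply, h4]
    norm_num
  have h1 : c ρ σ ≤ 1 := by
    rcases hc with rfl | rfl
    · refine hv !![0, 0, 1 / 2, 1 / 2; 0, 0, 1 / 2, -1 / 2; 0, 0, 0, 0; 0, 0, 0, 0] _ _ ?_ ?_ ?_ ?_
      · simp [hρ, Fin.sum_univ_four]; norm_num
      · intro i j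
        fin_cases i <;> fin_cases j <;> simp [hρ, Fin.sum_univ_four, map_ofNat] <;> norm_num
      · intro i j
        fin_cases i <;> fin_cases j <;> simp [hσ, Fin.sum_univ_four, map_ofNat] <;> norm_num
      · intro m
        fin_cases m <;> simp [H₀, Fin.sum_univ_four, map_ofNat] <;> norm_num
    · refine hv !![0, 0, 0, 0; 0, 0, 0, 0; 1 / 2, 1 / 2, 0, 0; 1 / 2, -1 / 2, 0, 0] _ _ ?_ ?_ ?_ ?_
      · simp [hσ, Fin.sum_univ_four]; norm_num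
      · intro i j
        fin_cases i <;> fin_cases j <;> simp [hσ, Fin.sum_univ_four, map_ofNat] <;> norm_num
      · intro i j
        fin_cases i <;> fin_cases j <;> simp [hρ, Fin.sum_univ_four, map_ofNat] <;> norm_num
      · intro m
        fin_cases m <;> simp [H₀, Fin.sum_univ_four, map_ofNat] <;> norm_num
  have hp : ∀ a b : Fin 4 → ℂ, star a ⬝ᵥ a = 1 → star b ⬝ᵥ b = 1 →
      c (vecMulVec a (star a)) (vecMulVec b (star b)) =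
      5 - ((star (star a) ⬝ᵥ H₀ 0 *ᵥ star a) * (star b ⬝ᵥ H₀ 0 *ᵥ b)).re -
        ((star (star a) ⬝ᵥ H₀ 1 *ᵥ star a) * (star b ⬝ᵥ H₀ 1 *ᵥ b)).re := by
    intro a b ha hb
    have h2 : (vecMulVec a (star a))ᵀ = vecMulVec (star a) (star (star a)) := by
      rw [transpose_vecMulVec, star_star]
    have h3 : star (star a) ⬝ᵥ star a = 1 := by rw [star_star, dotProduct_comm, ha]
    rcases hc with rfl | rfl
    · simp only [h2]
      exact W_pure _ _ h3 hb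
    · simp only [h2]
      rw [W_pure _ _ hb h3, mul_comm, mul_comm (star b ⬝ᵥ H₀ 1 *ᵥ b)]
  have hb : ∀ A B, BddBelow {t | ∃ (K : ℕ) (p : Fin K → ℝ) (Ψ Φ : Fin K → Fin 4 → ℂ),
      (∀ k, 0 < p k) ∧ ∑ k, p k = 1 ∧ (∀ k, star (Ψ k) ⬝ᵥ Ψ k = 1 ∧ star (Φ k) ⬝ᵥ Φ k = 1) ∧
      ∑ k, (p k : ℂ) • vecMulVec (Ψ k) (star (Ψ k)) = A ∧
      ∑ k, (p k : ℂ) • vecMulVec (Φ k) (star (Φ k)) = B ∧
      t = ∑ k, p k * c (vecMulVec (Ψ k) (star (Ψ k))) (vecMulVec (Φ k) (star (Φ k)))} := by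
    intro A B
    refine ⟨0, ?_⟩
    rintro _ ⟨K, p, Ψ, Φ, h2, -, -, -, -, rfl⟩
    exact Finset.sum_nonneg fun k _ => mul_nonneg (h2 k).le (h0 _ _)
  have u : ∀ i : Fin 4, star (Pi.single i 1 : Fin 4 → ℂ) ⬝ᵥ Pi.single i 1 = 1 := by simp
  have dρ : ∑ k : Fin 2, ((![1 / 2, 1 / 2] k : ℝ) : ℂ) • vecMulVec
      ((![Pi.single 0 1, Pi.single 1 1] : Fin 2 → Fin 4 → ℂ) k)
      (star ((![Pi.single 0 1, Pi.single 1 1] : Fin 2 → Fin 4 → ℂ) k)) = ρ := by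
    ext i j
    fin_cases i <;> fin_cases j <;> simp [hρ, vecMulVec_apply]
  have dσ : ∑ k : Fin 2, ((![1 / 2, 1 / 2] k : ℝ) : ℂ) • vecMulVec
      ((![Pi.single 2 1, Pi.single 3 1] : Fin 2 → Fin 4 → ℂ) k)
      (star ((![Pi.single 2 1, Pi.single 3 1] : Fin 2 → Fin 4 → ℂ) k)) = σ := by
    ext i j
    fin_cases i <;> fin_cases j <;> simp [hσ, vecMulVec_apply]
  have pp : ∀ k : Fin 2, (0 : ℝ) < ![1 / 2, 1 / 2] k := fun k => by fin_cases k <;> simp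
  have ps : ∑ k : Fin 2, (![1 / 2, 1 / 2] : Fin 2 → ℝ) k = 1 := by simp; norm_num
  have h2 : Sep c ρ ρ ≤ 1 := by
    refine csInf_le (hb _ _) ⟨2, _, _, _, pp, ps, ?_, dρ, dρ, ?_⟩
    · intro k
      fin_cases k <;> exact ⟨u _, u _⟩
    · simp only [Fin.sum_univ_two, cons_val_zero, cons_val_one, hp _ _ (u _) (u _)]
      simp [H₀]
      norm_num
  have h3 : Sep c σ σ ≤ 1 := by
    refine csInf_le (hb _ _) ⟨2, _, _, _, pp, ps, ?_, dσ, dσ, ?_⟩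
    · intro k
      fin_cases k <;> exact ⟨u _, u _⟩
    · simp only [Fin.sum_univ_two, cons_val_zero, cons_val_one, hp _ _ (u _) (u _)]
      simp [H₀]
      norm_num
  have hz : ∀ (K : ℕ) (p : Fin K → ℝ) (Ψ : Fin K → Fin 4 → ℂ) (i : Fin 4), (∀ k, 0 < p k) →
      (∑ k, (p k : ℂ) • vecMulVec (Ψ k) (star (Ψ k))) i i = 0 → ∀ k, Ψ k i = 0 := by
    intro K p Ψ i h4 h5 k
    simp only [Matrix.sum_apply, Matrix.smul_apply, vecMulVec_apply, Pi.star_apply, smul_eq_mul,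
      Complex.star_def, Complex.mul_conj, ← Complex.ofReal_mul, ← Complex.ofReal_sum,
      Complex.ofReal_eq_zero] at h5
    have h6 := (Finset.sum_eq_zero_iff_of_nonneg fun k _ =>
      mul_nonneg (h4 k).le (Complex.normSq_nonneg _)).1 h5 k (Finset.mem_univ k)
    exact Complex.normSq_eq_zero.1 ((mul_eq_zero.1 h6).resolve_left (h4 k).ne')
  have h4 : 3 ≤ Sep c ρ σ := by
    refine le_csInf ⟨_, 2, _, _, _, pp, ps, ?_, dρ, dσ, rfl⟩ ?_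
    · intro k
      fin_cases k <;> exact ⟨u _, u _⟩
    · rintro _ ⟨K, p, Ψ, Φ, h4, h5, h6, h7, h8, rfl⟩
      rw [← mul_one 3, ← h5, Finset.mul_sum]
      refine Finset.sum_le_sum fun k _ => ?_
      rw [mul_comm, hp _ _ (h6 k).1 (h6 k).2]
      refine mul_le_mul_of_nonneg_left ?_ (h4 k).le
      have h9 := corr (star (Ψ k)) (Φ k) (by rw [star_star, dotProduct_comm, (h6 k).1]) (h6 k).2
        (by simp [hz K p Ψ 2 h4 (by rw [h7, hρ]; rfl) k])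
        (by simp [hz K p Ψ 3 h4 (by rw [h7, hρ]; rfl) k])
        (hz K p Φ 0 h4 (by rw [h8, hσ]; rfl) k) (hz K p Φ 1 h4 (by rw [h8, hσ]; rfl) k)
      linarith
  have h5 := h0 ρ ρ
  have h6 := h0 σ σ
  rw [Md, Md]
  linarith

end Pool.Agent.Results.MP_9a8b60_mp.Blocks
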